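import Pool.Agent.Y305.WN.Stm

set_option autoImplicit false

open Filter Topology Set
open scoped ENNReal NNReal
open Pool.Agent.H86R3 Pool.Agent.H86R3.Wnc Pool.Agent.H86R3.JB

namespace Pool.Agent.Y304.WN

open Pool.Agent.Y305.WN

universe u

section

variable {Y : Type u} [NormedAddCommGroup Y] [NormedSpace ℂ Y]

/-- the partial sums of the absolute values -/
lemma sum_le (f : ℕ → StrongDual ℂ Y)
    (hf : ∀ (F : Finset ℕ) (a : ℕ → ℂ), (∀ i, ‖a i‖ ≤ 1) → ‖∑ i ∈ F, a i • f i‖ ≤ 1)
    (F : Finset ℕ) (y : Y) : ∑ i ∈ F, ‖f i y‖ ≤ ‖y‖ := by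
  set a : ℕ → ℂ := fun i => (starRingEnd ℂ) (f i y) / (‖f i y‖ : ℂ) with ha
  have ha1 : ∀ i, ‖a i‖ ≤ 1 := by
    intro i
    rw [ha]
    simp only [norm_div, RCLike.norm_conj, Complex.norm_real, norm_norm]
    exact div_self_le_one _
  have ha2 : ∀ i, a i * f i y = (‖f i y‖ : ℂ) := by
    intro i
    rw [ha]
    by_cases h : f i y = 0
    · simp [h]
    · have h' : (‖f i y‖ : ℂ) ≠ 0 := by
        rw [Ne, Complex.ofReal_eq_zero, norm_eq_zero]; exact h
      simp only
      rw [div_mul_eq_mul_div, div_eq_iff h']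
      rw [← Complex.normSq_eq_conj_mul_self, Complex.normSq_eq_norm_sq]
      push_cast
      ring
  have h1 : (∑ i ∈ F, a i • f i) y = ((∑ i ∈ F, ‖f i y‖ : ℝ) : ℂ) := by
    rw [ContinuousLinearMap.sum_apply]
    push_cast
    refine Finset.sum_congr rfl fun i _ => ?_
    exact ha2 i
  have h2 : ‖(∑ i ∈ F, a i • f i) y‖ ≤ 1 * ‖y‖ :=
    (ContinuousLinearMap.le_opNorm _ _).trans
      (mul_le_mul_of_nonneg_right (hf F a ha1) (norm_nonneg _))
  rw [h1, Complex.norm_real, one_mul] at h2
  exact (le_abs_self _).trans h2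

lemma summable_f (f : ℕ → StrongDual ℂ Y)
    (hf : ∀ (F : Finset ℕ) (a : ℕ → ℂ), (∀ i, ‖a i‖ ≤ 1) → ‖∑ i ∈ F, a i • f i‖ ≤ 1)
    (y : Y) : Summable fun i => ‖f i y‖ :=
  summable_of_sum_le (fun _ => norm_nonneg _) (fun F => sum_le f hf F y)

end

theorem seq : S_SEQ.{u} := by
  intro Y _ _ f δ hδ hfδ hf
  -- points where the functionals are large
  have hy : ∀ i, ∃ y : Y, ‖y‖ < 1 ∧ δ < ‖f i y‖ := fun i =>
    (f i).exists_lt_apply_of_lt_opNorm (hfδ i)
  choose y hy1 hyδ using hy
  obtain ⟨φ, hφ, hφF⟩ := rosenthal (fun k j => ‖f j (y k)‖) (fun _ _ => norm_nonneg _) 1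
    (fun k F => (sum_le f hf F (y k)).trans (hy1 k).le) (δ / 2) (by positivity)
  have hs : ∀ z : Y, Summable fun j => ‖f (φ j) z‖ := fun z =>
    (summable_f f hf z).comp_injective hφ.injective
  have hts : ∀ z : Y, ∑' j, ‖f (φ j) z‖ ≤ ‖z‖ := by
    intro z
    refine (hs z).tsum_le_of_sum_le fun F => ?_
    have := sum_le f hf (F.image φ) z
    rwa [Finset.sum_image (fun a _ b _ h => hφ.injective h)] at this
  have hsn : ∀ (g : C(StoneCech ℕ, ℂ)) (z : Y), Summable fun j => ‖val g j * f (φ j) z‖ := by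
    intro g z
    refine Summable.of_nonneg_of_le (fun _ => norm_nonneg _) (fun j => ?_) ((hs z).mul_left ‖g‖)
    rw [norm_mul]
    exact mul_le_mul_of_nonneg_right (norm_val_le g j) (norm_nonneg _)
  have hsg : ∀ (g : C(StoneCech ℕ, ℂ)) (z : Y), Summable fun j => val g j * f (φ j) z :=
    fun g z => (hsn g z).of_norm
  have hbd : ∀ (g : C(StoneCech ℕ, ℂ)) (z : Y), ‖∑' j, val g j * f (φ j) z‖ ≤ ‖g‖ * ‖z‖ := by
    intro g z
    refine (norm_tsum_le_tsum_norm (hsn g z)).trans ?_
    refine le_trans ?_ (mul_le_mul_of_nonneg_left (hts z) (norm_nonneg g))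
    rw [← tsum_mul_left]
    refine (hsn g z).tsum_le_tsum (fun j => ?_) ((hs z).mul_left ‖g‖)
    rw [norm_mul]
    exact mul_le_mul_of_nonneg_right (norm_val_le g j) (norm_nonneg _)
  let T0 : C(StoneCech ℕ, ℂ) → StrongDual ℂ Y := fun g =>
    LinearMap.mkContinuous
      { toFun := fun z => ∑' j, val g j * f (φ j) z
        map_add' := by
          intro z w
          rw [← (hsg g z).tsum_add (hsg g w)]
          refine tsum_congr fun n => ?_
          rw [map_add, mul_add]
        map_smul' := by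
          intro c z
          rw [RingHom.id_apply, smul_eq_mul, ← tsum_mul_left]
          refine tsum_congr fun n => ?_
          rw [map_smul, smul_eq_mul]
          ring } ‖g‖ (hbd g)
  have hT0 : ∀ g z, T0 g z = ∑' j, val g j * f (φ j) z := fun _ _ => rfl
  let T : C(StoneCech ℕ, ℂ) →L[ℂ] StrongDual ℂ Y :=
    LinearMap.mkContinuous
      { toFun := T0
        map_add' := by
          intro g h
          ext z
          rw [ContinuousLinearMap.add_apply, hT0, hT0, hT0, ← (hsg g z).tsum_add (hsg h z)]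
          refine tsum_congr fun n => ?_
          change (g (stoneCechUnit n) + h (stoneCechUnit n)) * _ = _
          rw [add_mul]; rfl
        map_smul' := by
          intro c g
          ext z
          rw [RingHom.id_apply, ContinuousLinearMap.smul_apply, hT0, hT0, smul_eq_mul,
            ← tsum_mul_left]
          refine tsum_congr fun n => ?_
          change (c * g (stoneCechUnit n)) * _ = _
          rw [mul_assoc]; rfl } 1 (by
        intro g
        rw [one_mul]
        exact LinearMap.mkContinuous_norm_le _ (norm_nonneg _) (hbd g))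
  have hT : ∀ g z, T g z = ∑' j, val g j * f (φ j) z := fun _ _ => rfl
  refine ⟨T, fun g => ?_⟩
  -- the lower bound at every coordinate
  have key : ∀ k, ‖val g k‖ * δ - ‖g‖ * (δ / 2) ≤ ‖T g‖ := by
    intro k
    set z := y (φ k) with hz
    have h1 : ‖T g z‖ ≤ ‖T g‖ := by
      refine ((T g).le_opNorm z).trans ?_
      calc ‖T g‖ * ‖z‖ ≤ ‖T g‖ * 1 :=
            mul_le_mul_of_nonneg_left (hy1 _).le (norm_nonneg _)
        _ = ‖T g‖ := mul_one _
    refine le_trans ?_ h1
    rw [hT, (hsg g z).tsum_eq_add_tsum_ite k]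
    have h2 : ‖∑' n, ite (n = k) 0 (val g n * f (φ n) z)‖ ≤ ‖g‖ * (δ / 2) := by
      have hle : ∀ n, ‖ite (n = k) 0 (val g n * f (φ n) z)‖ ≤ ite (n = k) 0 (‖g‖ * ‖f (φ n) z‖) := by
        intro n
        split_ifs with h
        · simp
        · rw [norm_mul]
          exact mul_le_mul_of_nonneg_right (norm_val_le g n) (norm_nonneg _)
      have hsum2 : Summable fun n => ite (n = k) 0 (‖g‖ * ‖f (φ n) z‖) := by
        refine Summable.of_nonneg_of_le (fun n => ?_) (fun n => ?_) ((hs z).mul_left ‖g‖)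
        · split_ifs
          · exact le_rfl
          · positivity
        · split_ifs
          · positivity
          · exact le_rfl
      have hsum1 : Summable fun n => ‖ite (n = k) 0 (val g n * f (φ n) z)‖ :=
        Summable.of_nonneg_of_le (fun _ => norm_nonneg _) hle hsum2
      refine (norm_tsum_le_tsum_norm hsum1).trans ?_
      refine (hsum1.tsum_le_tsum hle hsum2).trans ?_
      refine hsum2.tsum_le_of_sum_le fun F => ?_
      have h3 : ∑ n ∈ F, ite (n = k) 0 (‖g‖ * ‖f (φ n) z‖)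
          = ‖g‖ * ∑ n ∈ F.erase k, ‖f (φ n) z‖ := by
        rw [Finset.mul_sum, ← Finset.filter_ne' F k, Finset.sum_filter]
        refine Finset.sum_congr rfl fun n _ => ?_
        by_cases h : n = k
        · simp [h]
        · simp [h]
      rw [h3]
      exact mul_le_mul_of_nonneg_left (hφF k (F.erase k) (Finset.notMem_erase k F)) (norm_nonneg _)
    have h4 : ‖val g k‖ * δ ≤ ‖val g k * f (φ k) z‖ := by
      rw [norm_mul]
      exact mul_le_mul_of_nonneg_left (hyδ _).le (norm_nonneg _)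
    have h5 := norm_sub_le_norm_add (val g k * f (φ k) z)
      (∑' n, ite (n = k) 0 (val g n * f (φ n) z))
    linarith
  -- the supremum of the coordinates
  have hsup : ‖g‖ ≤ (‖T g‖ + ‖g‖ * (δ / 2)) / δ := by
    rw [ContinuousMap.norm_le _ (by positivity)]
    intro x
    have hclosed : IsClosed {x : StoneCech ℕ | ‖g x‖ ≤ (‖T g‖ + ‖g‖ * (δ / 2)) / δ} :=
      isClosed_le g.continuous.norm continuous_const
    have hsub : Set.range (stoneCechUnit : ℕ → StoneCech ℕ) ⊆
        {x | ‖g x‖ ≤ (‖T g‖ + ‖g‖ * (δ / 2)) / δ} := by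
      rintro _ ⟨n, rfl⟩
      change ‖val g n‖ ≤ _
      rw [le_div_iff₀ hδ]
      linarith [key n]
    have := hclosed.closure_subset_iff.mpr hsub
    rw [denseRange_stoneCechUnit.closure_eq] at this
    exact this (Set.mem_univ x)
  rw [le_div_iff₀ hδ] at hsup
  linarith

end Pool.Agent.Y304.WN
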